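import Pool.Agent.GenPolygon.Hex

set_option autoImplicit false

/-!
Generalized hexagons with exactly three points on every line have at most nine lines on every
point; in particular there is no semi-finite generalized hexagon with `s = 2`.
-/

namespace Pool.Agent.Results.MP_09d438_co.HexagonThreePoints

open Pool.Agent.GenPolygon

/-- Let `(P, L, I)` be a generalized hexagon (incidence graph of diameter `6` and girth `12`) in
which every line has exactly three points. Then every point lies on at most nine lines. -/
theorem result {P L : Type*} (I : P → L → Prop)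
    (hdiam : (SimpleGraph.fromRel
      (fun x y : P ⊕ L => ∃ p l, x = Sum.inl p ∧ y = Sum.inr l ∧ I p l)).ediam = 6)
    (hgirth : (SimpleGraph.fromRel
      (fun x y : P ⊕ L => ∃ p l, x = Sum.inl p ∧ y = Sum.inr l ∧ I p l)).egirth = 12)
    (hline : ∀ l : L, {p : P | I p l}.ncard = 3) (a : P) :
    {l : L | I a l}.encard ≤ 9 := by
  classical
  have G : GP 3 I (pd I) := gp_of_inc (by norm_num; exact hdiam) (by norm_num; exact hgirth)
  have H : Hex (pd I) (Tri3 I) := hex_of_gp G hline
  by_contra hcon
  push Not at hcon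
  have h10 : (10 : ℕ∞) ≤ {l : L | I a l}.encard := by
    have := Order.add_one_le_of_lt hcon
    have e : (9 : ℕ∞) + 1 = 10 := by norm_num
    rwa [e] at this
  obtain ⟨t, ht1, ht2⟩ := Set.exists_subset_encard_eq h10
  have htf : t.Finite := Set.finite_of_encard_eq_coe (k := 10) (by rw [ht2]; norm_num)
  have htn : t.ncard = 10 := by
    rw [Set.ncard, ht2]; rfl
  have := htf.fintype
  have htc : Fintype.card t = 10 := by
    rw [← Nat.card_eq_fintype_card, Nat.card_coe_set_eq, htn]
  obtain ⟨b, hb⟩ := G.opp a
  have hba : pd I b a = 3 := by rw [H.symm]; exact hb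
  -- the nearest point to `b` on each line through `a`
  have hnear : ∀ l : t, ∃ k, I k l.1 ∧ pd I b k = 2 := by
    intro l
    obtain ⟨k, hk1, hk2, hk3⟩ := G.near b l.1
    refine ⟨k, hk1, ?_⟩
    have hak : a ≠ k := by
      rintro rfl; omega
    have := hk3 a (ht1 l.2) hak
    omega
  choose p hp1 hp2 using hnear
  have hap : ∀ l : t, a ≠ p l := by
    intro l h
    have := hp2 l
    rw [← h] at this
    omega
  have hap1 : ∀ l : t, pd I a (p l) = 1 := by
    intro l
    have h1 := G.one a (p l) l.1 (ht1 l.2) (hp1 l)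
    have h2 : pd I a (p l) ≠ 0 := fun h => hap l ((G.zero _ _).1 h)
    omega
  have hu : ∀ l : t, ∃ u, Tri3 I a (p l) u := fun l => H.join (hap1 l)
  choose u hu using hu
  have hq : ∀ l : t, ∃ q, pd I (p l) q = 1 ∧ pd I q b = 1 := fun l =>
    H.mid (by rw [H.symm]; exact hp2 l)
  choose q hq1 hq2 using hq
  have hv : ∀ l : t, ∃ v, Tri3 I (p l) (q l) v := fun l => H.join (hq1 l)
  choose v hv using hv
  have hw : ∀ l : t, ∃ w, Tri3 I b (q l) w := fun l => H.join (by rw [H.symm]; exact hq2 l)
  choose w hw using hw
  have C : Conf (pd I) (Tri3 I) a b p q v u w := by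
    refine ⟨hb, hu, hv, hw, ?_⟩
    intro l m hlm hpe
    apply hlm
    apply Subtype.ext
    have e1 : pd I a (p l) = 1 := hap1 l
    have e0 : pd I a a = 0 := H.self a
    have hpm : I (p l) m.1 := by rw [hpe]; exact hp1 m
    exact G.uniq a (p l) l.1 m.1 a a (by omega) (hp1 l) hpm (ht1 l.2) (ht1 m.2)
      (by omega) (by omega)
  exact C.false_of_ten H htc

end Pool.Agent.Results.MP_09d438_co.HexagonThreePoints
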